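import Pool.Agent.Helper40.HS.Level

/-!
# The rational Hodge structures of derived equivalent varieties

Mathematical content. Let `X`, `Y` be smooth projective varieties of dimension `n`. A derived
equivalence `D(X) ≅ D(Y)` induces an isomorphism `phi` of their rational cohomologies which is a
Mukai isometry and intertwines the actions of Hochschild cohomology. It does not respect the
degrees. Let `T^j` be the rational Hodge structure generated by the holomorphic `j`-forms (the
smallest rational sub-Hodge structure of `H^j(X, ℚ)` whose complexification contains `H^{0,j}`).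

1. `T^j(X) ≅ T^j(Y)` for `j ≤ 2`, `j ≥ n - 2` and for the further good degrees. Low degrees: for
`t` rational and `omega` the class of a divisor, the component of degree `j` of
`exp (-t omega) phi⁻¹ (b phi (exp (t omega)))` is a morphism of rational Hodge structures
`H^j(Y, ℚ) → H^j(X, ℚ)`, whose `(0,j)`-part is polynomial in `t` and injective for `t = I`, hence
for some rational `t`; `T^j` is semisimple, so it embeds.

2. For a simple rational Hodge structure `L` let `m(V)` be its multiplicity in `V`. With respect to
the Mukai pairing the part of `H(X, ℚ)` of the parity of `n` is the orthogonal sum of a positive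
and of a negative rational Hodge structure `V₊`, `V₋`, sums of copies of the primitive cohomology
`P^k`. As `phi (V₊(X))` meets `V₋(Y)` in `0`, `m (V₊(X)) + m (V₋(Y)) ≤ m (H(Y))`; by symmetry
`m (V₊)` and `m (V₋)` are derived invariants. This and the invariance of `m` of the part of the
other parity determine `m (H^k)` for all `k`, if `L` has a part of type `(0,j) + (i,i)` with
`j ≥ n - 4` and `m (T^j)` is known, and for all `L` if `n ≤ 4`.

3. `H^2(X, ℚ)` is the sum of `T^2` and of the divisor classes.
-/

set_option autoImplicit false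

namespace Pool.Agent.Results.MP_b4fe5e_ag.RationalHodgeStructures

open Pool.Agent.Hodge81 Pool.Agent.Hodge7

theorem result {n : ℕ} {A B : Type*} [Ring A] [Algebra ℂ A] [Module ℚ A] [FiniteDimensional ℂ A]
    [Ring B] [Algebra ℂ B] [Module ℚ B] [FiniteDimensional ℂ B]
    (X : HodgeRing n A) (Y : HodgeRing n B) (P : PolyvectorAction X) (Q : PolyvectorAction Y)
    (R : RationalCohomology X) (S : RationalCohomology Y)
    (phi : A ≃ₗ[ℂ] B) (hphi : IsHochschildIso P Q phi) (hM : IsMukaiIsometry X Y phi)
    (hR : IsRational R S phi) :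
    (∀ j, GoodDegree X Y j → HodgeIso X Y (R.level j j) (S.level j j)) ∧
    (∀ m, n ≤ m + 4 → (∀ j, m ≤ j → HodgeIso X Y (R.level j j) (S.level j j)) →
      ∀ k, HodgeIso X Y (R.level k m) (S.level k m)) ∧
    (n ≤ 4 → ∀ k, HodgeIso X Y (R.H k) (S.H k)) ∧
    (n ≤ 5 → ∀ k, Odd k → HodgeIso X Y (R.H k) (S.H k)) ∧
    (HodgeIso X Y (R.H 2) (S.H 2) ↔ R.picard = S.picard) ∧
    (n ≤ 6 → ((∀ k, Even k → HodgeIso X Y (R.H k) (S.H k)) ↔ R.picard = S.picard)) ∧
    X.h 1 1 + S.picard = Y.h 1 1 + R.picard ∧
    (n ≤ 5 → ((∀ p q, X.h p q = Y.h p q) ↔ R.picard = S.picard)) := by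
  obtain ⟨h1, h2, h3, h4, h5, h6, h7⟩ := hodge_structures_main X Y P Q R S phi hphi hM hR
  exact ⟨h1, fun m hm h k => level_main hM hR hm h k, h2, h3, h5, h4, h6, h7⟩

end Pool.Agent.Results.MP_b4fe5e_ag.RationalHodgeStructures
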